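import Mathlib
import Pool.Agent.Q298.Rset.Main

/-!
# MP_d665d0_pr: the full strong law for low dimensional random sets in B-convex spaces

From the helper modules:

* `BConvex X`: for some `k ≥ 2` and `δ > 0`, any `k` vectors of norm at most one admit signs with
  `‖∑ ± x i‖ ≤ k (1 - δ)`.
* `BC X`: nonempty bounded convex subsets of `X`.
* `supp A f = sup_{a ∈ A} f a`.
* `Sph X`: the unit sphere of the dual of `X`.
* `R A : Sph X →ᵇ ℝ`: the support function of `A` as a bounded continuous function on the sphere.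
* `DimLe d A`: the linear span of the differences of points of `A` has finite dimension `≤ d`.
-/

open Finset Filter Topology MeasureTheory ProbabilityTheory
open scoped Pointwise BoundedContinuousFunction
open Pool.Agent.Q298.Rset

namespace Pool.Agent.Results.MP_d665d0_pr.FullStrongLaw

universe u v

/-- The Borel sigma-algebra on the space of bounded continuous functions on the dual sphere. -/
noncomputable local instance borelZ (X : Type u) [NormedAddCommGroup X] [NormedSpace ℝ X] :
    MeasurableSpace (Sph X →ᵇ ℝ) := borel _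

local instance borelSpaceZ (X : Type u) [NormedAddCommGroup X] [NormedSpace ℝ X] :
    BorelSpace (Sph X →ᵇ ℝ) := ⟨rfl⟩

/-- The dimension of the affine hull of `A` is exactly `d`. -/
def DimEq {X : Type u} [NormedAddCommGroup X] [NormedSpace ℝ X] (d : ℕ) (A : Set X) : Prop :=
  FiniteDimensional ℝ (vectorSpan ℝ A) ∧ Module.finrank ℝ (vectorSpan ℝ A) = d

/-- The full form of the strong law for the class of random sets all of whose values satisfy
`p`. -/
def FullSLLN (X : Type u) [NormedAddCommGroup X] [NormedSpace ℝ X] (p : Set X → Prop) : Prop :=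
  ∀ (Ω : Type v) [MeasurableSpace Ω] (P : Measure Ω) [IsProbabilityMeasure P]
    (Ψ : ℕ → Ω → BC X) (U : ℕ → BC X),
    (∀ n, Measurable (fun ω => R (Ψ n ω))) →
    (∀ n, Integrable (fun ω => R (Ψ n ω)) P) →
    (∀ n, ∫ ω, R (Ψ n ω) ∂P = R (U n)) →
    iIndepFun (fun n ω => R (Ψ n ω)) P →
    (∃ C : ℝ, ∀ n ω, ∀ a ∈ (Ψ n ω).carrier, ‖a‖ ≤ C) →
    (∀ n ω, p (Ψ n ω).carrier) →
    ∀ᵐ ω ∂P, Tendsto (fun n : ℕ => Metric.hausdorffDist
      ((n : ℝ)⁻¹ • ∑ i ∈ range n, (Ψ i ω).carrier) ((n : ℝ)⁻¹ • ∑ i ∈ range n, (U i).carrier))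
      atTop (𝓝 0)

/-- In every B-convex space the full form of the strong law holds for the random sets whose values
have dimension exactly `d`, and even for those whose values have dimension at most `d`. -/
theorem result (X : Type u) [NormedAddCommGroup X] [NormedSpace ℝ X] (hX : BConvex X) (d : ℕ) :
    FullSLLN.{u, v} X (DimEq d) ∧ FullSLLN.{u, v} X (DimLe d) := by
  have key : FullSLLN.{u, v} X (DimLe d) := by
    intro Ω _ P _ Ψ U hmeas hint hE hind hC hdim
    obtain ⟨C, hC⟩ := hC
    exact slln_sets hX d P Ψ U hmeas hint hE hind hC hdim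
  refine ⟨?_, key⟩
  intro Ω _ P _ Ψ U hmeas hint hE hind hC hdim
  exact key Ω P Ψ U hmeas hint hE hind hC (fun n ω => ⟨(hdim n ω).1, (hdim n ω).2.le⟩)

end Pool.Agent.Results.MP_d665d0_pr.FullStrongLaw
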